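import Pool.Agent.Lib.MP_305fdd_al.F8.D1.Defs
import Pool.Agent.Lib.MP_305fdd_al.F8.EG.Leg

/-!
# MP_305fdd_al, `d = 1`, block E1: arithmetic of the Gaussian integers `O1`
-/

set_option autoImplicit false

namespace Pool.Agent.F8.D1.PE

open Pool.Agent.MP_305fdd_al Pool.Agent.Lib.MP_305fdd_al Pool.Agent.F2X Pool.Agent.F8
  Pool.Agent.F8.HN Pool.Agent.F8.AB Pool.Agent.F8.D1
open scoped QuadraticAlgebra

/-- the norm form of `O1` -/
def n1 (z : O1) : ℤ := z.re * z.re + z.im * z.im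

theorem n1_mul (z w : O1) : n1 (z * w) = n1 z * n1 w := by
  unfold n1
  rw [QuadraticAlgebra.re_mul, QuadraticAlgebra.im_mul]
  ring

theorem n1_nonneg (z : O1) : 0 ≤ n1 z := by
  unfold n1
  nlinarith [sq_nonneg z.re, sq_nonneg z.im]

theorem n1_eq_zero {z : O1} (h : n1 z = 0) : z = 0 := by
  unfold n1 at h
  have h2 : z.im = 0 := by
    have : z.im ^ 2 = 0 := by nlinarith [sq_nonneg z.re, sq_nonneg z.im]
    exact pow_eq_zero_iff (two_ne_zero) |>.1 this
  have h3 : z.re = 0 := by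
    rw [h2] at h
    have : z.re ^ 2 = 0 := by linear_combination h
    exact pow_eq_zero_iff (two_ne_zero) |>.1 this
  apply QuadraticAlgebra.ext
  · exact h3
  · exact h2

instance : NoZeroDivisors O1 where
  eq_zero_or_eq_zero_of_mul_eq_zero {a b} h := by
    have h1 : n1 a * n1 b = 0 := by rw [← n1_mul, h]; rfl
    rcases mul_eq_zero.1 h1 with h2 | h2
    · exact Or.inl (n1_eq_zero h2)
    · exact Or.inr (n1_eq_zero h2)

instance : Nontrivial O1 := ⟨⟨0, 1, fun h => by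
  have := congrArg QuadraticAlgebra.re h
  exact absurd this (by decide)⟩⟩

instance : IsDomain O1 := NoZeroDivisors.to_isDomain O1

instance : CharZero O1 where
  cast_injective m n h := by
    have := congrArg QuadraticAlgebra.re h
    simpa using this

theorem n1_add (u v : O1) : n1 (u - v) ≤ 2 * n1 u + 2 * n1 v := by
  have h := n1_nonneg (u + v)
  have e : n1 (u + v) = 2 * n1 u + 2 * n1 v - n1 (u - v) := by
    unfold n1
    simp only [QuadraticAlgebra.re_sub, QuadraticAlgebra.im_sub, QuadraticAlgebra.re_add,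
      QuadraticAlgebra.im_add]
    ring
  linarith

/-- the conjugate -/
def cj1 (z : O1) : O1 := ⟨z.re, -z.im⟩

theorem mul_cj1 (z : O1) : z * cj1 z = ((n1 z : ℤ) : O1) := by
  apply QuadraticAlgebra.ext
  · rw [QuadraticAlgebra.re_mul, QuadraticAlgebra.re_intCast, Int.cast_id]
    unfold cj1 n1
    ring
  · rw [QuadraticAlgebra.im_mul, QuadraticAlgebra.im_intCast]
    unfold cj1
    ring

theorem n1_cj1 (z : O1) : n1 (cj1 z) = n1 z := by
  unfold cj1 n1
  ring

theorem rnd (n A : ℤ) (hn0 : 0 < n) : ∃ e : ℤ, 4 * ((A - n * e) * (A - n * e)) ≤ n * n := by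
  have a1 := Int.emod_nonneg A hn0.ne'
  have a2 := Int.emod_lt_of_pos A hn0
  have a3 := Int.emod_add_mul_ediv A n
  rcases le_total (2 * (A % n)) n with h | h
  · refine ⟨A / n, ?_⟩
    have e1 : A - n * (A / n) = A % n := by linarith
    rw [e1]
    nlinarith
  · refine ⟨A / n + 1, ?_⟩
    have e1 : A - n * (A / n + 1) = A % n - n := by linarith
    rw [e1]
    nlinarith

/-- the norm as a natural number -/
def N1 (z : O1) : ℕ := (n1 z).natAbs

theorem N1_cast (z : O1) : (N1 z : ℤ) = n1 z := by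
  unfold N1
  exact Int.natAbs_of_nonneg (n1_nonneg z)

theorem N1_mul (x y : O1) : N1 (x * y) = N1 x * N1 y := by
  unfold N1
  rw [n1_mul, Int.natAbs_mul]

theorem N1_zero {x : O1} (h : N1 x = 0) : x = 0 := by
  apply n1_eq_zero
  rw [← N1_cast, h]; rfl

theorem N1_unit {x : O1} (h : N1 x = 1) : IsUnit x := by
  refine IsUnit.of_mul_eq_one (cj1 x) ?_
  rw [mul_cj1, ← N1_cast, h]
  rfl

/-- division with a small remainder -/
theorem small1 (a b : O1) (hb : b ≠ 0) : ∃ q : O1, 2 * n1 (a - b * q) ≤ n1 b := by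
  have hn : 0 < n1 b := lt_of_le_of_ne (n1_nonneg b) fun h => hb (n1_eq_zero h.symm)
  obtain ⟨e, he⟩ := rnd (n1 b) (a * cj1 b).re hn
  obtain ⟨f, hf⟩ := rnd (n1 b) (a * cj1 b).im hn
  refine ⟨⟨e, f⟩, ?_⟩
  have h1 : (a - b * ⟨e, f⟩) * cj1 b = ⟨(a * cj1 b).re - n1 b * e, (a * cj1 b).im - n1 b * f⟩ := by
    have h2 : (a - b * ⟨e, f⟩) * cj1 b = a * cj1 b - (b * cj1 b) * ⟨e, f⟩ := by ring
    rw [h2, mul_cj1]
    apply QuadraticAlgebra.ext
    · simp
    · simp
  have h3 : n1 (a - b * ⟨e, f⟩) * n1 b = n1 ((a - b * ⟨e, f⟩) * cj1 b) := by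
    rw [n1_mul, n1_cj1]
  have h4 : (2 * n1 (a - b * ⟨e, f⟩)) * n1 b ≤ n1 b * n1 b := by
    rw [mul_assoc, h3, h1]
    have e1 : ∀ x y : ℤ, n1 ⟨x, y⟩ = x * x + y * y := fun _ _ => rfl
    rw [e1]
    linarith
  exact le_of_mul_le_mul_right h4 hn

instance : IsPrincipalIdealRing O1 where
  principal I := by
    classical
    by_cases hI : I = ⊥
    · exact ⟨0, by rw [hI]; simp⟩
    · obtain ⟨x, hxI, hx0⟩ := Submodule.exists_mem_ne_zero_of_ne_bot hI
      have hex : ∃ n : ℕ, ∃ x ∈ I, x ≠ 0 ∧ N1 x = n := ⟨N1 x, x, hxI, hx0, rfl⟩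
      obtain ⟨b, hbI, hb0, hbn⟩ := Nat.find_spec hex
      have hmin := fun m (hm : m < Nat.find hex) => Nat.find_min hex hm
      rw [← hbn] at hmin
      refine ⟨b, le_antisymm (fun a haI => ?_) ?_⟩
      · obtain ⟨q, hq⟩ := small1 a b hb0
        have hr : a - b * q ∈ I := I.sub_mem haI (I.mul_mem_right q hbI)
        have hn : 0 < N1 b := Nat.pos_of_ne_zero fun h => hb0 (N1_zero h)
        rw [← N1_cast, ← N1_cast] at hq
        have h0 : a - b * q = 0 := by
          by_contra h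
          exact hmin (N1 (a - b * q)) (by omega) ⟨_, hr, h, rfl⟩
        rw [sub_eq_zero] at h0
        rw [h0]
        exact Ideal.mem_span_singleton.mpr (Dvd.intro q rfl)
      · rw [Submodule.span_singleton_le_iff_mem]; exact hbI

/-- the norm -/
def nm1 : EG.Nm O1 where
  N := N1
  mul := N1_mul
  zero _ h := N1_zero h
  unit _ h := N1_unit h

/-- the descent step -/
theorem desc1 (a b r : O1) (hb : b ≠ 0) (h5 : 5 ≤ N1 b) (hab : N1 a ≤ N1 b) :
    ∃ q : O1, N1 ((r - b * q) ^ 2 - a) < N1 b ^ 2 := by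
  obtain ⟨q, hq⟩ := small1 r b hb
  refine ⟨q, ?_⟩
  have h1 := n1_add ((r - b * q) ^ 2) a
  rw [pow_two, n1_mul] at h1
  have h2 : 0 ≤ n1 (r - b * q) := n1_nonneg _
  zify
  rw [pow_two (r - b * q), N1_cast, N1_cast]
  have h5' : 5 ≤ n1 b := by rw [← N1_cast]; exact_mod_cast h5
  have hab' : n1 a ≤ n1 b := by rw [← N1_cast, ← N1_cast]; exact_mod_cast hab
  generalize n1 (r - b * q) = x at *
  generalize n1 b = n at *
  generalize n1 a = y at *
  generalize n1 ((r - b * q) * (r - b * q) - a) = w at *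
  have h3 : 4 * (x * x) ≤ n * n := by nlinarith
  nlinarith

theorem dvd_n1 (x : O1) (hx : x ≠ 0) : ∃ n : ℕ, 0 < n ∧ x ∣ (n : O1) :=
  ⟨N1 x, Nat.pos_of_ne_zero fun h => hx (N1_zero h), cj1 x, by
    rw [mul_cj1, ← N1_cast]; rfl⟩

/-! ### The prime `1 + i` -/

theorem pp_dvd {x : O1} : pp ℤ ∣ x ↔ Even (x.re + x.im) := by
  constructor
  · rintro ⟨y, rfl⟩
    rw [QuadraticAlgebra.re_mul, QuadraticAlgebra.im_mul]
    simp only [pp]
    exact ⟨y.re, by ring⟩
  · rintro ⟨k, hk⟩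
    refine ⟨⟨k, k - x.re⟩, ?_⟩
    apply QuadraticAlgebra.ext
    · rw [QuadraticAlgebra.re_mul]
      simp only [pp]; ring
    · rw [QuadraticAlgebra.im_mul]
      simp only [pp]; linarith

theorem pp_prime : Prime (pp ℤ) := by
  refine ⟨?_, ?_, ?_⟩
  · intro h
    have := congrArg QuadraticAlgebra.im h
    simp [pp] at this
  · intro h
    have h1 : pp ℤ ∣ 1 := h.dvd
    rw [pp_dvd] at h1
    simp at h1
  · intro a b h
    rw [pp_dvd, QuadraticAlgebra.re_mul, QuadraticAlgebra.im_mul] at h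
    rw [pp_dvd, pp_dvd]
    have h1 : Even ((a.re + a.im) * (b.re + b.im)) := by
      have h2 : (a.re + a.im) * (b.re + b.im) = (a.re * b.re + -1 * a.im * b.im +
        (a.re * b.im + a.im * b.re + 0 * a.im * b.im)) + 2 * (a.im * b.im) := by ring
      rw [h2]
      exact h.add (even_two_mul _)
    exact Int.even_mul.1 h1

end Pool.Agent.F8.D1.PE
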