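import Pool.Agent.Lib.MP_305fdd_al.F8.D1.E.Ar

/-!
# MP_305fdd_al, `d = 1`, block E1: Legendre's theorem over the Gaussian integers, the base cases
-/

set_option autoImplicit false

namespace Pool.Agent.F8.D1.PE

open Pool.Agent.MP_305fdd_al Pool.Agent.Lib.MP_305fdd_al Pool.Agent.F2X Pool.Agent.F8
  Pool.Agent.F8.HN Pool.Agent.F8.AB Pool.Agent.F8.D1
open scoped QuadraticAlgebra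

/-- the squarefree elements of norm less than five -/
theorem cls1 (a : O1) (h5 : N1 a < 5) (h0 : a ≠ 0) (hS : EG.Sf a) :
    a = ⟨1, 0⟩ ∨ a = ⟨-1, 0⟩ ∨ a = ⟨0, 1⟩ ∨ a = ⟨0, -1⟩ ∨ a = ⟨1, 1⟩ ∨
      a = ⟨1, -1⟩ ∨ a = ⟨-1, 1⟩ ∨ a = ⟨-1, -1⟩ := by
  obtain ⟨x, y⟩ := a
  have h1 : x * x + y * y < 5 := by
    have : (N1 ⟨x, y⟩ : ℤ) < 5 := by exact_mod_cast h5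
    rw [N1_cast] at this
    exact this
  have y1 : y ≤ 2 := by nlinarith [sq_nonneg x]
  have y2 : -2 ≤ y := by nlinarith [sq_nonneg x]
  have x1 : x ≤ 2 := by nlinarith [sq_nonneg y]
  have x2 : -2 ≤ x := by nlinarith [sq_nonneg y]
  have s1 : ¬ pp ℤ ^ 2 ∣ (⟨x, y⟩ : O1) := fun hd => pp_prime.not_isUnit (hS _ hd)
  interval_cases x <;> interval_cases y
  · norm_num at h1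
  · norm_num at h1
  · exact absurd ⟨⟨0, 1⟩, by decide⟩ s1
  · norm_num at h1
  · norm_num at h1
  · norm_num at h1
  · exact Or.inr (Or.inr (Or.inr (Or.inr (Or.inr (Or.inr (Or.inr rfl))))))
  · exact Or.inr (Or.inl rfl)
  · exact Or.inr (Or.inr (Or.inr (Or.inr (Or.inr (Or.inr (Or.inl rfl))))))
  · norm_num at h1
  · exact absurd ⟨⟨-1, 0⟩, by decide⟩ s1
  · exact Or.inr (Or.inr (Or.inr (Or.inl rfl)))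
  · exact absurd rfl h0
  · exact Or.inr (Or.inr (Or.inl rfl))
  · exact absurd ⟨⟨1, 0⟩, by decide⟩ s1
  · norm_num at h1
  · exact Or.inr (Or.inr (Or.inr (Or.inr (Or.inr (Or.inl rfl)))))
  · exact Or.inl rfl
  · exact Or.inr (Or.inr (Or.inr (Or.inr (Or.inl rfl))))
  · norm_num at h1
  · norm_num at h1
  · norm_num at h1
  · exact absurd ⟨⟨0, -1⟩, by decide⟩ s1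
  · norm_num at h1
  · norm_num at h1

theorem base1 (a b : O1) (ha0 : a ≠ 0) (hb0 : b ≠ 0) (ha : N1 a < 5) (hb : N1 b < 5) (hSa : EG.Sf a)
    (hSb : EG.Sf b) (_ : EG.LA a b) : EG.Sol a b := by
  rcases cls1 a ha ha0 hSa with rfl | rfl | rfl | rfl | rfl | rfl | rfl | rfl <;>
    rcases cls1 b hb hb0 hSb with rfl | rfl | rfl | rfl | rfl | rfl | rfl | rfl
  · exact ⟨⟨0, 1⟩, ⟨1, 0⟩, ⟨0, 0⟩, by decide, by decide⟩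
  · exact ⟨⟨0, 1⟩, ⟨0, 1⟩, ⟨0, 0⟩, by decide, by decide⟩
  · exact ⟨⟨0, 1⟩, ⟨0, 0⟩, ⟨0, -1⟩, by decide, by decide⟩
  · exact ⟨⟨0, 1⟩, ⟨0, 0⟩, ⟨0, -1⟩, by decide, by decide⟩
  · exact ⟨⟨0, 1⟩, ⟨0, 0⟩, ⟨0, -1⟩, by decide, by decide⟩
  · exact ⟨⟨0, 1⟩, ⟨0, 0⟩, ⟨0, -1⟩, by decide, by decide⟩
  · exact ⟨⟨0, 1⟩, ⟨0, 0⟩, ⟨0, -1⟩, by decide, by decide⟩
  · exact ⟨⟨0, 1⟩, ⟨0, 0⟩, ⟨0, -1⟩, by decide, by decide⟩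
  · exact ⟨⟨0, 1⟩, ⟨0, 1⟩, ⟨0, 0⟩, by decide, by decide⟩
  · exact ⟨⟨0, 1⟩, ⟨1, 0⟩, ⟨0, 0⟩, by decide, by decide⟩
  · exact ⟨⟨0, 1⟩, ⟨0, 0⟩, ⟨-1, 0⟩, by decide, by decide⟩
  · exact ⟨⟨0, 1⟩, ⟨0, 0⟩, ⟨-1, 0⟩, by decide, by decide⟩
  · exact ⟨⟨0, 1⟩, ⟨0, 0⟩, ⟨-1, 0⟩, by decide, by decide⟩
  · exact ⟨⟨0, 1⟩, ⟨0, 0⟩, ⟨-1, 0⟩, by decide, by decide⟩
  · exact ⟨⟨0, 1⟩, ⟨0, 0⟩, ⟨-1, 0⟩, by decide, by decide⟩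
  · exact ⟨⟨0, 1⟩, ⟨0, 0⟩, ⟨-1, 0⟩, by decide, by decide⟩
  · exact ⟨⟨0, 0⟩, ⟨0, 1⟩, ⟨0, -1⟩, by decide, by decide⟩
  · exact ⟨⟨0, 0⟩, ⟨0, 1⟩, ⟨-1, 0⟩, by decide, by decide⟩
  · exact ⟨⟨0, 1⟩, ⟨1, 0⟩, ⟨0, 0⟩, by decide, by decide⟩
  · exact ⟨⟨0, 1⟩, ⟨0, 1⟩, ⟨0, 0⟩, by decide, by decide⟩
  · exact ⟨⟨0, 1⟩, ⟨1, 0⟩, ⟨-1, 0⟩, by decide, by decide⟩
  · exact ⟨⟨0, 1⟩, ⟨0, 1⟩, ⟨0, -1⟩, by decide, by decide⟩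
  · exact ⟨⟨0, 1⟩, ⟨1, 0⟩, ⟨0, -1⟩, by decide, by decide⟩
  · exact ⟨⟨0, 1⟩, ⟨0, 1⟩, ⟨-1, 0⟩, by decide, by decide⟩
  · exact ⟨⟨0, 0⟩, ⟨0, 1⟩, ⟨0, -1⟩, by decide, by decide⟩
  · exact ⟨⟨0, 0⟩, ⟨0, 1⟩, ⟨-1, 0⟩, by decide, by decide⟩
  · exact ⟨⟨0, 1⟩, ⟨0, 1⟩, ⟨0, 0⟩, by decide, by decide⟩
  · exact ⟨⟨0, 1⟩, ⟨1, 0⟩, ⟨0, 0⟩, by decide, by decide⟩
  · exact ⟨⟨0, 1⟩, ⟨0, 1⟩, ⟨0, -1⟩, by decide, by decide⟩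
  · exact ⟨⟨0, 1⟩, ⟨1, 0⟩, ⟨-1, 0⟩, by decide, by decide⟩
  · exact ⟨⟨0, 1⟩, ⟨0, 1⟩, ⟨-1, 0⟩, by decide, by decide⟩
  · exact ⟨⟨0, 1⟩, ⟨1, 0⟩, ⟨0, -1⟩, by decide, by decide⟩
  · exact ⟨⟨0, 0⟩, ⟨0, 1⟩, ⟨0, -1⟩, by decide, by decide⟩
  · exact ⟨⟨0, 0⟩, ⟨0, 1⟩, ⟨-1, 0⟩, by decide, by decide⟩
  · exact ⟨⟨0, 1⟩, ⟨1, 0⟩, ⟨0, -1⟩, by decide, by decide⟩
  · exact ⟨⟨0, 1⟩, ⟨0, 1⟩, ⟨0, -1⟩, by decide, by decide⟩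
  · exact ⟨⟨0, 1⟩, ⟨1, 0⟩, ⟨0, 0⟩, by decide, by decide⟩
  · exact ⟨⟨0, 1⟩, ⟨1, 0⟩, ⟨-1, 1⟩, by decide, by decide⟩
  · exact ⟨⟨0, 1⟩, ⟨0, 1⟩, ⟨-1, 1⟩, by decide, by decide⟩
  · exact ⟨⟨0, 1⟩, ⟨0, 1⟩, ⟨0, 0⟩, by decide, by decide⟩
  · exact ⟨⟨0, 0⟩, ⟨0, 1⟩, ⟨0, -1⟩, by decide, by decide⟩
  · exact ⟨⟨0, 0⟩, ⟨0, 1⟩, ⟨-1, 0⟩, by decide, by decide⟩
  · exact ⟨⟨0, 1⟩, ⟨0, 1⟩, ⟨0, -1⟩, by decide, by decide⟩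
  · exact ⟨⟨0, 1⟩, ⟨1, 0⟩, ⟨0, -1⟩, by decide, by decide⟩
  · exact ⟨⟨1, 0⟩, ⟨0, 1⟩, ⟨-1, 1⟩, by decide, by decide⟩
  · exact ⟨⟨0, 1⟩, ⟨1, 0⟩, ⟨0, 0⟩, by decide, by decide⟩
  · exact ⟨⟨0, 1⟩, ⟨0, 1⟩, ⟨0, 0⟩, by decide, by decide⟩
  · exact ⟨⟨1, 0⟩, ⟨1, 0⟩, ⟨-1, 1⟩, by decide, by decide⟩
  · exact ⟨⟨0, 0⟩, ⟨0, 1⟩, ⟨0, -1⟩, by decide, by decide⟩
  · exact ⟨⟨0, 0⟩, ⟨0, 1⟩, ⟨-1, 0⟩, by decide, by decide⟩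
  · exact ⟨⟨0, 1⟩, ⟨1, 0⟩, ⟨-1, 0⟩, by decide, by decide⟩
  · exact ⟨⟨0, 1⟩, ⟨0, 1⟩, ⟨-1, 0⟩, by decide, by decide⟩
  · exact ⟨⟨0, 1⟩, ⟨0, 1⟩, ⟨-1, 1⟩, by decide, by decide⟩
  · exact ⟨⟨0, 1⟩, ⟨0, 1⟩, ⟨0, 0⟩, by decide, by decide⟩
  · exact ⟨⟨0, 1⟩, ⟨1, 0⟩, ⟨0, 0⟩, by decide, by decide⟩
  · exact ⟨⟨0, 1⟩, ⟨1, 0⟩, ⟨-1, 1⟩, by decide, by decide⟩
  · exact ⟨⟨0, 0⟩, ⟨0, 1⟩, ⟨0, -1⟩, by decide, by decide⟩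
  · exact ⟨⟨0, 0⟩, ⟨0, 1⟩, ⟨-1, 0⟩, by decide, by decide⟩
  · exact ⟨⟨0, 1⟩, ⟨0, 1⟩, ⟨-1, 0⟩, by decide, by decide⟩
  · exact ⟨⟨0, 1⟩, ⟨1, 0⟩, ⟨-1, 0⟩, by decide, by decide⟩
  · exact ⟨⟨0, 1⟩, ⟨0, 1⟩, ⟨0, 0⟩, by decide, by decide⟩
  · exact ⟨⟨1, 0⟩, ⟨1, 0⟩, ⟨-1, 1⟩, by decide, by decide⟩
  · exact ⟨⟨1, 0⟩, ⟨0, 1⟩, ⟨-1, 1⟩, by decide, by decide⟩
  · exact ⟨⟨0, 1⟩, ⟨1, 0⟩, ⟨0, 0⟩, by decide, by decide⟩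

/-- Legendre's theorem over the Gaussian integers -/
theorem leg1 : ∀ a b : O1, a ≠ 0 → b ≠ 0 → EG.LA a b → EG.Sol a b :=
  EG.legendre nm1 5 desc1 base1

end Pool.Agent.F8.D1.PE
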