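import Pool.Agent.Lib.MP_305fdd_al.F8.D1.E.Base
import Pool.Agent.Lib.MP_305fdd_al.F8.D1.Stm
import Pool.Agent.Lib.MP_305fdd_al.F8.EG.Tw

/-!
# MP_305fdd_al, `d = 1`: block E1
-/

set_option autoImplicit false

namespace Pool.Agent.F8.D1.PE

open Pool.Agent.MP_305fdd_al Pool.Agent.Lib.MP_305fdd_al Pool.Agent.F2X Pool.Agent.F8
  Pool.Agent.F8.HN Pool.Agent.F8.AB Pool.Agent.F8.D1
open scoped QuadraticAlgebra

theorem neg_fix {R : Type} [Ring R] [NoZeroDivisors R] [CharZero R] {x : R} (h : -x = x) : x = 0 := by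
  have h4 : 2 * x = 0 := by
    rw [two_mul]
    conv_lhs => rw [← h]
    rw [h, add_eq_zero_iff_eq_neg, h]
  exact (mul_eq_zero.1 h4).resolve_left two_ne_zero

/-- the component of the type given by `x`, `y` -/
theorem dec (z : Z1) (x y : Multiplicative (ZMod 2)) (f0 : x = 1 → sf ℤ z = z)
    (f1 : x ≠ 1 → sf ℤ z = -z) (e0 : y = 1 → se ℤ z = z) (e1 : y ≠ 1 → se ℤ z = -z) :
    ∃ t : O1, z = (if x = 1 then 1 else ff ℤ) * (if y = 1 then 1 else ee ℤ) * c1 ℤ t ∧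
      (x = 1 → y = 1 → t = z.a.a) := by
  by_cases hx : x = 1
  · have k1 := f0 hx
    rw [sf_apply] at k1
    have k2 : z.a.b = 0 := neg_fix (congrArg (fun w : Z1 => w.a.b) k1)
    have k3 : z.b.b = 0 := neg_fix (congrArg (fun w : Z1 => w.b.b) k1)
    by_cases hy : y = 1
    · have k4 := e0 hy
      rw [se_apply] at k4
      have k5 : z.b.a = 0 := neg_fix (congrArg (fun w : Z1 => w.b.a) k4)
      refine ⟨z.a.a, ?_, fun _ _ => rfl⟩
      rw [if_pos hx, if_pos hy, one_mul, one_mul, c1_apply]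
      apply S1.ext <;> apply K1.ext <;> simp [k2, k3, k5]
    · have k4 := e1 hy
      rw [se_apply] at k4
      have k5 : z.a.a = 0 := neg_fix (congrArg (fun w : Z1 => w.a.a) k4).symm
      refine ⟨z.b.a, ?_, fun _ h => absurd h hy⟩
      rw [if_pos hx, if_neg hy, one_mul, c1_apply]
      apply S1.ext <;> apply K1.ext <;>
        simp [k2, k3, k5, S1.mul_a, S1.mul_b, ee]
  · have k1 := f1 hx
    rw [sf_apply] at k1
    have k2 : z.a.a = 0 := neg_fix (congrArg (fun w : Z1 => w.a.a) k1).symm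
    have k3 : z.b.a = 0 := neg_fix (congrArg (fun w : Z1 => w.b.a) k1).symm
    by_cases hy : y = 1
    · have k4 := e0 hy
      rw [se_apply] at k4
      have k5 : z.b.b = 0 := neg_fix (congrArg (fun w : Z1 => w.b.b) k4)
      refine ⟨z.a.b, ?_, fun h => absurd h hx⟩
      rw [if_neg hx, if_pos hy, mul_one, c1_apply]
      apply S1.ext <;> apply K1.ext <;>
        simp [k2, k3, k5, S1.mul_a, S1.mul_b, K1.mul_a, K1.mul_b, ff]
    · have k4 := e1 hy
      rw [se_apply] at k4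
      have k5 : z.a.b = 0 := neg_fix (congrArg (fun w : Z1 => w.a.b) k4).symm
      refine ⟨z.b.b, ?_, fun h => absurd h hx⟩
      rw [if_neg hx, if_neg hy, c1_apply]
      apply S1.ext <;> apply K1.ext <;>
        simp [k2, k3, k5, S1.mul_a, S1.mul_b, K1.mul_a, K1.mul_b, ff, ee]

theorem E1m_surj (m : ℕ) : Function.Surjective (E1m (Int.castRingHom (ZMod m))) := by
  intro z
  obtain ⟨a, ha⟩ := ZMod.intCast_surjective z.re
  obtain ⟨b, hb⟩ := ZMod.intCast_surjective z.im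
  refine ⟨⟨a, b⟩, ?_⟩
  rw [E1m_apply]
  apply QuadraticAlgebra.ext
  · exact ha
  · exact hb

theorem E1m_ker (m : ℕ) (z : O1) (h : E1m (Int.castRingHom (ZMod m)) z = 0) : (m : O1) ∣ z := by
  rw [E1m_apply] at h
  have h1 : (z.re : ZMod m) = 0 := congrArg QuadraticAlgebra.re h
  have h2 : (z.im : ZMod m) = 0 := congrArg QuadraticAlgebra.im h
  rw [ZMod.intCast_zmod_eq_zero_iff_dvd] at h1 h2
  obtain ⟨a, ha⟩ := h1
  obtain ⟨b, hb⟩ := h2
  refine ⟨⟨a, b⟩, ?_⟩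
  apply QuadraticAlgebra.ext
  · rw [QuadraticAlgebra.re_mul, ha]; simp
  · rw [QuadraticAlgebra.im_mul, hb]; simp

theorem z2m : ∀ x y : Multiplicative (ZMod 2), x ≠ 1 → y ≠ 1 → x * y = 1 := by decide

/-- products of the factors of the types -/
theorem fac {Λ : Type} [Group Λ] (χ : Λ →* Multiplicative (ZMod 2)) (w : Z1) (p : O1)
    (hw : w ^ 2 = c1 ℤ p) (l l' : Λ) :
    (if χ l = 1 then 1 else w) * (if χ l' = 1 then 1 else w) =
      c1 ℤ (if χ l = 1 ∨ χ l' = 1 then 1 else p) * (if χ (l * l') = 1 then 1 else w) := by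
  rw [map_mul]
  by_cases k1 : χ l = 1
  · rw [if_pos k1, if_pos (Or.inl k1), k1, one_mul, map_one, one_mul, one_mul]
  · by_cases k2 : χ l' = 1
    · rw [if_pos k2, if_pos (Or.inr k2), k2, mul_one, mul_one, map_one, one_mul]
    · rw [if_neg k1, if_neg k2, if_neg (by tauto), z2m _ _ k1 k2, if_pos rfl, mul_one, ← hw,
        pow_two]

/-- BLOCK E1 -/
theorem p_E1 : S_E1 := by
  intro Λ _ Om _ _ _ J hJ s T hT χf χe hf0 hf1 hχ he0 he1 hirr hloc
  have hc1 : Function.Injective (c1 ℤ) := fun x y h => congrArg (fun w : Z1 => w.a.a) h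
  have hjc : Function.Injective (J.comp (c1 ℤ)) := hJ.comp hc1
  classical
  have hk : ∀ l, l ∈ (χf.prod χe).ker ↔ χf l = 1 ∧ χe l = 1 := by
    intro l
    rw [MonoidHom.mem_ker, MonoidHom.prod_apply, Prod.mk_eq_one]
  -- the factors
  obtain ⟨X, hX⟩ : ∃ X : Λ → Z1, ∀ l, X l = if χf l = 1 then 1 else ff ℤ := ⟨_, fun l => rfl⟩
  obtain ⟨Y, hY⟩ : ∃ Y : Λ → Z1, ∀ l, Y l = if χe l = 1 then 1 else ee ℤ := ⟨_, fun l => rfl⟩
  have hdec : ∀ l, ∃ t : O1, T l = X l * Y l * c1 ℤ t ∧ (χf l = 1 → χe l = 1 → t = (T l).a.a) := by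
    intro l
    rw [hX, hY]
    exact dec (T l) (χf l) (χe l) (hf0 l) (hf1 l) (he0 l) (he1 l)
  have e0 : ∀ l, χf l = 1 → χe l = 1 → T l = c1 ℤ (T l).a.a := by
    intro l h1 h2
    obtain ⟨t, ht, h3⟩ := hdec l
    rw [h3 h1 h2, hX, hY, if_pos h1, if_pos h2, one_mul, one_mul] at ht
    exact ht
  obtain ⟨ρ0, hρ0⟩ := EG.E_gen leg1 dvd_n1 (J.comp (c1 ℤ)) hjc (s.comp (χf.prod χe).ker.subtype)
    (fun l : (χf.prod χe).ker => (T l).a.a) (fun l => by
      show tr (s l) = J (c1 ℤ (T l).a.a)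
      rw [← e0 l ((hk l).1 l.2).1 ((hk l).1 l.2).2, hT]) hirr (by
      intro m hm
      obtain ⟨r, hr⟩ := hloc m hm
      refine ⟨E1 (ZMod m), inferInstance, E1m (Int.castRingHom (ZMod m)), E1m_surj m, E1m_ker m, r,
        fun l => ?_⟩
      obtain ⟨t, ht, hrt⟩ := hr l
      rw [hrt]
      show _ = E1m (Int.castRingHom (ZMod m)) (T l).a.a
      rw [ht]
      rfl)
  have hff0 : ff ℤ ≠ 0 := by
    intro h
    have h3 := congrArg (fun z : Z1 => z.a.b.re) h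
    simp [ff] at h3
  have hee0 : ee ℤ ≠ 0 := by
    intro h
    have h3 := congrArg (fun z : Z1 => z.b.a.re) h
    simp [ee] at h3
  have hJ0 : ∀ z : Z1, z ≠ 0 → J z ≠ 0 := fun z hz h => hz (hJ (by rw [h, map_zero]))
  have hX0 : ∀ l, J (X l) ≠ 0 := by
    intro l
    apply hJ0
    rw [hX]
    split_ifs
    · intro h
      have h3 := congrArg (fun z : Z1 => z.a.a.re) h
      simp at h3
    · exact hff0
  have hY0 : ∀ l, J (Y l) ≠ 0 := by
    intro l
    apply hJ0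
    rw [hY]
    split_ifs
    · intro h
      have h3 := congrArg (fun z : Z1 => z.a.a.re) h
      simp at h3
    · exact hee0
  have hii : (ii ℤ) * (-ii ℤ) = 1 := by rw [mul_neg, ii_sq, neg_neg]
  have hff : ff ℤ ^ 2 = c1 ℤ (pp ℤ) := ff_sq ℤ
  have hee : ee ℤ ^ 2 = c1 ℤ (ii ℤ) := ee_sq ℤ
  obtain ⟨u, hu⟩ : ∃ u : Λ → Om, ∀ l, u l = J (X l) * (J (Y l))⁻¹ := ⟨_, fun l => rfl⟩
  -- the factors for the types
  obtain ⟨P, hP⟩ : ∃ P : Λ → Λ → O1, ∀ l l', P l l' = if χf l = 1 ∨ χf l' = 1 then 1 else pp ℤ :=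
    ⟨_, fun _ _ => rfl⟩
  obtain ⟨Q, hQ⟩ : ∃ Q : Λ → Λ → O1, ∀ l l', Q l l' = if χe l = 1 ∨ χe l' = 1 then 1 else ii ℤ :=
    ⟨_, fun _ _ => rfl⟩
  obtain ⟨Q', hQ'⟩ : ∃ Q' : Λ → Λ → O1, ∀ l l', Q' l l' = if χe l = 1 ∨ χe l' = 1 then 1 else -ii ℤ :=
    ⟨_, fun _ _ => rfl⟩
  have hQQ : ∀ l l', Q l l' * Q' l l' = 1 := by
    intro l l'
    rw [hQ, hQ']
    split_ifs
    · rw [mul_one]
    · exact hii
  have hXX : ∀ l l', X l * X l' = c1 ℤ (P l l') * X (l * l') := by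
    intro l l'
    rw [hX, hX, hX, hP]
    exact fac χf (ff ℤ) (pp ℤ) hff l l'
  have hYY : ∀ l l', Y l * Y l' = c1 ℤ (Q l l') * Y (l * l') := by
    intro l l'
    rw [hY, hY, hY, hQ]
    exact fac χe (ee ℤ) (ii ℤ) hee l l'
  have hYi : ∀ l l', (J (Y l))⁻¹ * (J (Y l'))⁻¹ = J (c1 ℤ (Q' l l')) * (J (Y (l * l')))⁻¹ := by
    intro l l'
    have e1 : J (Y l) * J (Y l') = J (c1 ℤ (Q l l')) * J (Y (l * l')) := by
      rw [← map_mul, hYY, map_mul]
    have e2 : J (c1 ℤ (Q l l')) * J (c1 ℤ (Q' l l')) = 1 := by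
      rw [← map_mul, ← map_mul, hQQ, map_one, map_one]
    rw [← mul_inv, e1, mul_inv, ← eq_inv_of_mul_eq_one_right e2]
  have hX1 : ∀ l, X l * X l = c1 ℤ (P l l) := by
    intro l
    rw [hX, hP]
    by_cases k : χf l = 1
    · rw [if_pos k, if_pos (Or.inl k), mul_one, map_one]
    · rw [if_neg k, if_neg (by tauto), ← hff, pow_two]
  have hY1 : ∀ l, Y l * Y l = c1 ℤ (Q l l) := by
    intro l
    rw [hY, hQ]
    by_cases k : χe l = 1
    · rw [if_pos k, if_pos (Or.inl k), mul_one, map_one]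
    · rw [if_neg k, if_neg (by tauto), ← hee, pow_two]
  have hQu : ∀ l l', IsUnit (Q' l l') := fun l l' => IsUnit.of_mul_eq_one (Q l l') (by
    rw [mul_comm]; exact hQQ l l')
  have hXl : ∀ l g, χf g = 1 → X (l * g) = X l := by
    intro l g hg
    rw [hX, hX, map_mul, hg, mul_one]
  have hYl : ∀ l g, χe g = 1 → Y (l * g) = Y l := by
    intro l g hg
    rw [hY, hY, map_mul, hg, mul_one]
  obtain ⟨B, B', M, hB, hM, m1, m2⟩ := EG.tw_gen pp_prime (J.comp (c1 ℤ)) hjc s χf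
    (χf.prod χe).ker hχ u
    (fun g hg => by
      obtain ⟨h1, h2⟩ := (hk g).1 hg
      rw [hu, hX, hY, if_pos h1, if_pos h2, map_one, inv_one, mul_one])
    (fun l l' => P l l' * Q' l l')
    (fun l l' => by
      rw [hu, hu, hu, mul_mul_mul_comm, hYi, ← map_mul, hXX, map_mul, mul_mul_mul_comm]
      show _ = J (c1 ℤ (P l l' * Q' l l')) * _
      rw [map_mul (c1 ℤ), map_mul J])
    (fun l l' h => by
      show IsUnit (P l l' * Q' l l')
      rw [hP, if_pos h, one_mul]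
      exact hQu l l')
    (fun l => P l l * Q' l l)
    (fun l => by
      show u l ^ 2 = J (c1 ℤ (P l l * Q' l l))
      have e2 : J (c1 ℤ (Q l l)) * J (c1 ℤ (Q' l l)) = 1 := by
        rw [← map_mul, ← map_mul, hQQ, map_one, map_one]
      rw [hu, mul_pow, ← map_pow, pow_two (X l), hX1, inv_pow, ← map_pow, pow_two (Y l), hY1,
        map_mul (c1 ℤ), map_mul J, ← eq_inv_of_mul_eq_one_right e2])
    (fun l h => by
      show Associated (P l l * Q' l l) _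
      rw [hP, if_neg (by tauto)]
      exact associated_mul_unit_left _ _ (hQu l l))
    (fun l g hg => by
      obtain ⟨h1, h2⟩ := (hk g).1 hg
      obtain ⟨t, ht, -⟩ := hdec (l * g)
      rw [hXl l g h1, hYl l g h2] at ht
      refine ⟨P l l * t, ?_, fun h => ?_⟩
      · show u l * tr (s (l * g)) = J (c1 ℤ (P l l * t))
        rw [hT, ht, hu, map_mul (c1 ℤ), ← hX1, map_mul J, map_mul J, map_mul J, map_mul J]
        have e3 : (J (Y l))⁻¹ * J (Y l) = 1 := inv_mul_cancel₀ (hY0 l)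
        linear_combination J (X l) * J (X l) * J (c1 ℤ t) * e3
      · rw [hP, if_neg (by tauto)]
        exact dvd_mul_right _ _)
    ρ0 (fun g => by
      rw [hρ0]
      show tr (s g) = J (c1 ℤ (T g).a.a)
      rw [← e0 g ((hk g).1 g.2).1 ((hk g).1 g.2).2, hT]) hirr
  obtain ⟨ρ, r1, r2, r3⟩ := EG.tw_out (c1 ℤ) J hJ s χf (ff ℤ) hff (hJ0 _ hff0) u
    (fun l => by
      rw [hu]
      exact mul_ne_zero (hX0 l) (inv_ne_zero (hY0 l))) Y
    (fun l k => by
      rw [hu, hX, if_pos k, map_one, one_mul, mul_inv_cancel₀ (hY0 l)])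
    (fun l k => by
      rw [hu, mul_left_comm, mul_inv_cancel₀ (hY0 l), mul_one, hX, if_neg k]) B B' M hB hM m1 m2
  have fc : ∀ a : O1, sf ℤ (c1 ℤ a) = c1 ℤ a := by
    intro a
    rw [sf_apply, c1_apply]
    apply S1.ext <;> apply K1.ext <;> simp
  have ec : ∀ a : O1, se ℤ (c1 ℤ a) = c1 ℤ a := by
    intro a
    rw [se_apply, c1_apply]
    apply S1.ext <;> apply K1.ext <;> simp
  have fY : ∀ l, sf ℤ (Y l) = Y l := by
    intro l
    rw [hY]
    split_ifs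
    · rw [map_one]
    · exact sf_ee ℤ
  refine ⟨ρ, fun l => hJ (by rw [r1, hT]), ?_, ?_, ?_, ?_⟩
  · intro l hl
    obtain ⟨a, b, c, d, h⟩ := r2 l hl
    rw [tw_apply]
    conv_rhs => rw [eq_mx (ρ l)]
    apply mx_congr
    · rw [h]
      show sf ℤ (Y l * c1 ℤ a) = Y l * c1 ℤ a
      rw [map_mul, fY, fc]
    · rw [h]
      show -sf ℤ (Y l * (ff ℤ * c1 ℤ b)) = Y l * (ff ℤ * c1 ℤ b)
      rw [map_mul, map_mul, fY, fc, sf_ff]; ring
    · rw [h]
      show -sf ℤ (Y l * (ff ℤ * c1 ℤ c)) = Y l * (ff ℤ * c1 ℤ c)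
      rw [map_mul, map_mul, fY, fc, sf_ff]; ring
    · rw [h]
      show sf ℤ (Y l * c1 ℤ d) = Y l * c1 ℤ d
      rw [map_mul, fY, fc]
  · intro l hl
    obtain ⟨a, b, c, d, h⟩ := r3 l hl
    rw [tw_apply]
    conv_rhs => rw [eq_mx (ρ l), mx_neg]
    apply mx_congr
    · rw [h]
      show sf ℤ (Y l * (ff ℤ * c1 ℤ a)) = -(Y l * (ff ℤ * c1 ℤ a))
      rw [map_mul, map_mul, fY, fc, sf_ff]; ring
    · rw [h]
      show -sf ℤ (Y l * c1 ℤ b) = -(Y l * c1 ℤ b)
      rw [map_mul, fY, fc]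
    · rw [h]
      show -sf ℤ (Y l * c1 ℤ c) = -(Y l * c1 ℤ c)
      rw [map_mul, fY, fc]
    · rw [h]
      show sf ℤ (Y l * (ff ℤ * c1 ℤ d)) = -(Y l * (ff ℤ * c1 ℤ d))
      rw [map_mul, map_mul, fY, fc, sf_ff]; ring
  · intro l hl
    have hYe : se ℤ (Y l) = Y l := by rw [hY, if_pos hl, map_one]
    apply Subtype.ext
    refine Matrix.ext fun i k => ?_
    show se ℤ ((ρ l).val i k) = (ρ l).val i k
    by_cases hx : χf l = 1
    · obtain ⟨a, b, c, d, h⟩ := r2 l hx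
      rw [h, Matrix.smul_apply, smul_eq_mul, map_mul, hYe]
      congr 1
      fin_cases i <;> fin_cases k <;> simp [ec, se_ff]
    · obtain ⟨a, b, c, d, h⟩ := r3 l hx
      rw [h, Matrix.smul_apply, smul_eq_mul, map_mul, hYe]
      congr 1
      fin_cases i <;> fin_cases k <;> simp [ec, se_ff]
  · intro l hl
    have hYe : se ℤ (Y l) = -Y l := by rw [hY, if_neg hl, se_ee]
    apply Subtype.ext
    refine Matrix.ext fun i k => ?_
    show se ℤ ((ρ l).val i k) = -((ρ l).val i k)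
    by_cases hx : χf l = 1
    · obtain ⟨a, b, c, d, h⟩ := r2 l hx
      rw [h, Matrix.smul_apply, smul_eq_mul, map_mul, hYe, neg_mul]
      congr 2
      fin_cases i <;> fin_cases k <;> simp [ec, se_ff]
    · obtain ⟨a, b, c, d, h⟩ := r3 l hx
      rw [h, Matrix.smul_apply, smul_eq_mul, map_mul, hYe, neg_mul]
      congr 2
      fin_cases i <;> fin_cases k <;> simp [ec, se_ff]

end Pool.Agent.F8.D1.PE
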